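import Mathlib
import Pool.Agent.TauStar.Defs
import Pool.Agent.TauStar.Tower
import Pool.Agent.TauStar.Category
import Pool.Agent.TSN63.NoTower

/-!
# One explicit cover decides Q1, unless `b = d` is the length of a tower
-/

set_option autoImplicit false

namespace Pool.Agent.TSN

open Set Filter Pool.Agent.TauStar

/-- the dominating number -/
noncomputable def domNum : Cardinal.{0} :=
  sInf {κ | ∃ D : Set (ℕ → ℕ), (∀ f : ℕ → ℕ, ∃ g ∈ D, ∀ᶠ n in atTop, f n ≤ g n) ∧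
    Cardinal.mk D = κ}

/-- the unbounding number -/
noncomputable def unbNum : Cardinal.{0} :=
  sInf {κ | ∃ D : Set (ℕ → ℕ), (∀ f : ℕ → ℕ, ∃ g ∈ D, ¬ ∀ᶠ n in atTop, g n ≤ f n) ∧
    Cardinal.mk D = κ}

/-- The explicit cover, enumerated by `e`: the `n`-th member is `{x | block x m ≠ s}`, where
`e n = (m, s)`. -/
def Ustar (e : ℕ ≃ Idx) (n : ℕ) : Set (ℕ → Bool) := Uidx (e n)

lemma preimage_infinite (e : ℕ ≃ Idx) (S : Set Idx) (hS : S.Infinite) : (e ⁻¹' S).Infinite :=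
  hS.preimage (by rw [e.surjective.range_eq]; exact subset_univ _)

lemma isClopen_Ustar (e : ℕ ≃ Idx) (n : ℕ) : IsClopen (Ustar e n) := isClopen_Uidx _

lemma injective_Ustar (e : ℕ ≃ Idx) : Function.Injective (Ustar e) :=
  Uidx_injective.comp e.injective

lemma Ustar_ne_univ (e : ℕ ≃ Idx) (n : ℕ) : Ustar e n ≠ univ := Uidx_ne_univ _

lemma large_Ustar (e : ℕ ≃ Idx) (x : ℕ → Bool) : {n | x ∈ Ustar e n}.Infinite := by
  have h1 := preimage_infinite e _ (big_univ.diff_graph x).infinite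
  exact h1.mono fun n hn => hn.2

lemma not_gamma_Ustar (e : ℕ ≃ Idx) : ¬ HasGammaSubcover (Ustar e) := by
  classical
  rintro ⟨A, hA, hA'⟩
  let N : Set ℕ := {n | ∃ s, (⟨n, s⟩ : Idx) ∈ e '' A}
  have hN : N.Infinite := by
    intro hfin
    have h1 : (e '' A).Infinite := hA.image e.injective.injOn
    refine h1 ((hfin.biUnion fun n _ => (toFinite (univ : Set (Fin (n + 1) → Bool))).image
      (Sigma.mk n)).subset ?_)
    rintro ⟨n, s⟩ hp1
    exact mem_biUnion (⟨s, hp1⟩ : n ∈ N) ⟨s, mem_univ _, rfl⟩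
  have hch : ∀ n, ∃ s : Fin (n + 1) → Bool, n ∈ N → (⟨n, s⟩ : Idx) ∈ e '' A := by
    intro n
    by_cases h : n ∈ N
    · obtain ⟨s, hs⟩ := h
      exact ⟨s, fun _ => hs⟩
    · exact ⟨fun _ => false, fun h' => absurd h' h⟩
  choose F hF using hch
  obtain ⟨x, hx⟩ := exists_point F
  refine hN (((hA' x).image fun n => (e n).1).subset ?_)
  intro n hn
  obtain ⟨m, hm, hm'⟩ := hF n hn
  refine ⟨m, ⟨hm, ?_⟩, ?_⟩
  · change x ∉ Uidx (e m)
    rw [hx, hm']
  · change (e m).1 = n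
    rw [hm']

/-- A chain of infinite sets of indices almost escaping every point gives the tau-star property. -/
theorem tauStar_of_chain (e : ℕ ≃ Idx) {ι : Type} (T : ι → Set Idx)
    (hinf : ∀ i, (T i).Infinite) (hlin : ∀ i j, (T i \ T j).Finite ∨ (T j \ T i).Finite)
    (hev : ∀ x, ∃ i, (T i \ {p | x ∈ Uidx p}).Finite) : IsTauStarCover (Ustar e) := by
  classical
  choose c hc using hev
  have key : ∀ S : Set Idx, S.Finite → (e ⁻¹' S).Finite := fun S h =>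
    h.preimage e.injective.injOn
  have main : ∀ x z : ℕ → Bool, (T (c x) \ T (c z)).Finite →
      (e ⁻¹' (T (c x) ∩ {p | x ∈ Uidx p}) \ e ⁻¹' (T (c z) ∩ {p | z ∈ Uidx p})).Finite := by
    intro x z h
    refine (key _ (h.union (hc z))).subset ?_
    rintro n ⟨⟨hn1, hn2⟩, hn3⟩
    by_cases h4 : e n ∈ T (c z)
    · right
      exact ⟨h4, fun h5 => hn3 ⟨h4, h5⟩⟩
    · left
      exact ⟨hn1, h4⟩
  refine ⟨fun n => (isClopen_Ustar e n).isOpen, injective_Ustar e, Ustar_ne_univ e, large_Ustar e,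
    fun x => e ⁻¹' (T (c x) ∩ {p | x ∈ Uidx p}), fun x n hn => hn.2, fun x => ?_, fun x z => ?_⟩
  · refine preimage_infinite e _ (((hinf (c x)).sdiff (hc x)).mono ?_)
    rintro p ⟨hp1, hp2⟩
    refine ⟨hp1, ?_⟩
    by_contra h3
    exact hp2 ⟨hp1, h3⟩
  · rcases hlin (c x) (c z) with h | h
    · exact Or.inl (main x z h)
    · exact Or.inr (main z x h)

/-- The combinatorial form of the tau-star property of the explicit cover. -/
theorem tauStar_Ustar_iff (e : ℕ ≃ Idx) : IsTauStarCover (Ustar e) ↔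
    ∃ 𝒯 : Set (Set Idx), (∀ T ∈ 𝒯, T.Infinite) ∧
      (∀ T ∈ 𝒯, ∀ T' ∈ 𝒯, (T \ T').Finite ∨ (T' \ T).Finite) ∧
      ∀ F : ∀ n : ℕ, Fin (n + 1) → Bool, ∃ T ∈ 𝒯, {n | (⟨n, F n⟩ : Idx) ∈ T}.Finite := by
  classical
  constructor
  · intro h
    obtain ⟨B, hB⟩ := h.refinable
    refine ⟨Set.range fun x => e '' B x, ?_, ?_, ?_⟩
    · rintro _ ⟨x, rfl⟩
      exact (hB.infinite x).image e.injective.injOn
    · have key : ∀ x z, (B x \ B z).Finite → (e '' B x \ e '' B z).Finite := by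
        intro x z h
        rw [← image_sdiff e.injective]
        exact h.image _
      rintro _ ⟨x, rfl⟩ _ ⟨z, rfl⟩
      rcases hB.linear x z with h | h
      · exact Or.inl (key x z h)
      · exact Or.inr (key z x h)
    · intro F
      obtain ⟨x, hx⟩ := exists_point F
      refine ⟨_, ⟨x, rfl⟩, ?_⟩
      have h0 : {n | (⟨n, F n⟩ : Idx) ∈ e '' B x} = ∅ := by
        rw [eq_empty_iff_forall_notMem]
        rintro n ⟨k, hk, hk'⟩
        have h1 : x ∈ Uidx (e k) := hB.subset x hk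
        rw [hk'] at h1
        exact (hx ⟨n, F n⟩).2 rfl h1
      rw [h0]
      exact Set.finite_empty
  · rintro ⟨𝒯, h1, h2, h3⟩
    refine tauStar_of_chain e (fun T : 𝒯 => T.1) (fun T => h1 _ T.2) (fun T T' => h2 _ T.2 _ T'.2)
      fun x => ?_
    obtain ⟨T, hT, hT'⟩ := h3 (block x)
    refine ⟨⟨T, hT⟩, (hT'.image fun n => (⟨n, block x n⟩ : Idx)).subset ?_⟩
    rintro ⟨n, s⟩ ⟨hp1, hp2⟩
    have h4 : block x n = s := by
      by_contra h5
      exact hp2 h5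
    refine ⟨n, ?_, by simp only [h4]⟩
    change (⟨n, block x n⟩ : Idx) ∈ T
    rw [h4]
    exact hp1

/-- Columns of arbitrary finite sizes suffice. -/
theorem tauStar_of_columns (e : ℕ ≃ Idx) {ι : Type} (C : ℕ → Type) [∀ m, Fintype (C m)]
    [∀ m, Nonempty (C m)] (T : ι → Set (Σ m, C m)) (hinf : ∀ i, (T i).Infinite)
    (hlin : ∀ i j, (T i \ T j).Finite ∨ (T j \ T i).Finite)
    (hev : ∀ f : ∀ m, C m, ∃ i, {m | (⟨m, f m⟩ : Σ m, C m) ∈ T i}.Finite) :
    IsTauStarCover (Ustar e) := by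
  classical
  let M : ℕ → ℕ := fun m => m + ∑ i ∈ Finset.range (m + 1), Fintype.card (C i)
  have hM : StrictMono M := by
    refine strictMono_nat_of_lt_succ fun m => ?_
    simp only [M]
    rw [Finset.sum_range_succ _ (m + 1)]
    omega
  have hcard : ∀ m, Fintype.card (C m) ≤ Fintype.card (Fin (M m + 1) → Bool) := by
    intro m
    have h1 : Fintype.card (C m) ≤ M m := by
      simp only [M]
      rw [Finset.sum_range_succ]
      omega
    simp only [Fintype.card_pi, Fintype.card_bool, Finset.prod_const, Finset.card_univ,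
      Fintype.card_fin]
    have h2 : M m + 1 < 2 ^ (M m + 1) := Nat.lt_two_pow_self
    omega
  have hφ : ∀ m, Nonempty (C m ↪ (Fin (M m + 1) → Bool)) := fun m =>
    Function.Embedding.nonempty_of_card_le (hcard m)
  let φ : ∀ m, C m ↪ (Fin (M m + 1) → Bool) := fun m => (hφ m).some
  let Φ : (Σ m, C m) → Idx := fun q => ⟨M q.1, φ q.1 q.2⟩
  have hΦ : Function.Injective Φ := by
    rintro ⟨m, σ⟩ ⟨m', σ'⟩ h
    have h1 : M m = M m' := congrArg Sigma.fst h
    obtain rfl := hM.injective h1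
    have h2 : φ m σ = φ m σ' := sigma_mk_injective h
    rw [(φ m).injective h2]
  have himg : ∀ i j, (T i \ T j).Finite → (Φ '' T i \ Φ '' T j).Finite := by
    intro i j h
    rw [← image_sdiff hΦ]
    exact h.image _
  refine tauStar_of_chain e (fun i => Φ '' T i) (fun i => (hinf i).image hΦ.injOn) (fun i j => ?_)
    fun x => ?_
  · rcases hlin i j with h | h
    · exact Or.inl (himg i j h)
    · exact Or.inr (himg j i h)
  · obtain ⟨i, hi⟩ := hev fun m => Function.invFun (φ m) (block x (M m))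
    refine ⟨i, ((hi.image fun m =>
      (⟨m, Function.invFun (φ m) (block x (M m))⟩ : Σ m, C m)).image Φ).subset ?_⟩
    rintro _ ⟨⟨⟨m, σ⟩, hq, rfl⟩, hp2⟩
    have h4 : block x (M m) = φ m σ := by
      by_contra h5
      exact hp2 h5
    have h5 : Function.invFun (φ m) (block x (M m)) = σ := by
      rw [h4]
      exact Function.leftInverse_invFun (φ m).injective σ
    refine ⟨⟨m, σ⟩, ⟨m, ?_, by simp only [h5]⟩, rfl⟩
    change (⟨m, Function.invFun (φ m) (block x (M m))⟩ : Σ m, C m) ∈ T i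
    rw [h5]
    exact hq

/-- A branch of a closed set steered by a sequence of finite instructions. -/
lemma exists_branch {F : Set (ℕ → Bool)} (hF : IsClosed F) (hne : F.Nonempty) {j : ℕ → ℕ}
    (hj : StrictMono j) (f : ∀ m, (Fin (j m) → Bool) → Fin (j (m + 1))) :
    ∃ a ∈ F, ∀ m, (∃ b ∈ F, (∀ i : Fin (j m), b i = a i) ∧ b (f m fun i => a i) = false) →
      a (f m fun i => a i) = false := by
  classical
  obtain ⟨a₀, ha₀⟩ := hne
  let P : (m : ℕ) → F → (ℕ → Bool) → Prop := fun m a b =>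
    b ∈ F ∧ (∀ i : Fin (j m), b i = a.1 i) ∧ b (f m fun i => a.1 i) = false
  let A : ℕ → F := fun n => Nat.rec ⟨a₀, ha₀⟩
    (fun m a => if h : ∃ b, P m a b then ⟨h.choose, h.choose_spec.1⟩ else a) n
  have hA : ∀ m, A (m + 1) = if h : ∃ b, P m (A m) b then ⟨h.choose, h.choose_spec.1⟩ else A m :=
    fun m => rfl
  have h1 : ∀ m, ∀ k < j m, (A (m + 1)).1 k = (A m).1 k := by
    intro m k hk
    rw [hA]
    split_ifs with h
    · exact h.choose_spec.2.1 ⟨k, hk⟩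
    · rfl
  have h2 : ∀ m n, m ≤ n → ∀ k < j m, (A n).1 k = (A m).1 k := by
    intro m n hmn
    induction hmn with
    | refl => exact fun k _ => rfl
    | @step n hmn ih =>
      intro k hk
      rw [← ih k hk]
      exact h1 n k (lt_of_lt_of_le hk (hj.monotone hmn))
  let a : ℕ → Bool := fun k => (A (k + 1)).1 k
  have h3 : ∀ m, ∀ k < j m, a k = (A m).1 k := by
    intro m k hk
    rcases le_total (k + 1) m with h | h
    · exact (h2 (k + 1) m h k (lt_of_lt_of_le (Nat.lt_succ_self k) (hj.id_le (k + 1)))).symm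
    · exact h2 m (k + 1) h k hk
  refine ⟨a, ?_, ?_⟩
  · have h : Tendsto (fun n => (A n).1) atTop (nhds a) := by
      rw [tendsto_pi_nhds]
      intro k
      refine tendsto_const_nhds.congr' ?_
      filter_upwards [eventually_ge_atTop (k + 1)] with n hn
      exact h3 n k (lt_of_lt_of_le (Nat.lt_of_succ_le hn) (hj.id_le n))
    exact hF.mem_of_tendsto h (Eventually.of_forall fun n => (A n).2)
  · rintro m ⟨b, hb1, hb2, hb3⟩
    have h4 : (fun i : Fin (j m) => a i) = fun i : Fin (j m) => (A m).1 i :=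
      funext fun i => h3 m i i.2
    have h5 : ∃ b, P m (A m) b := by
      refine ⟨b, hb1, fun i => ?_, ?_⟩
      · rw [hb2 i]
        exact h3 m i i.2
      · rw [← h4]
        exact hb3
    have h6 : (A (m + 1)).1 (f m fun i => (A m).1 i) = false := by
      rw [hA, dif_pos h5]
      exact h5.choose_spec.2.2
    rw [h3 (m + 1) _ (f m fun i => a i).2, h4]
    exact h6

section closed

variable {U : ℕ → Set (ℕ → Bool)} {B : (ℕ → Bool) → Set ℕ}

/-- The closed set: each of its elements contains some `B x`, and no `B c` is almost contained in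
all its elements beyond any of its nodes. -/
lemma exists_closed (hU : ∀ n, IsOpen (U n)) (hB : IsLinearRefinement U B)
    (hlow : ∀ S : Set (ℕ → Bool), S.Countable → ∃ x, ∀ s ∈ S, (B x \ B s).Finite)
    (hno : ¬ HasGammaSubcover U) :
    ∃ F : Set (ℕ → Bool), IsClosed F ∧ F.Nonempty ∧ (∀ a ∈ F, ∃ x, ∀ n ∈ B x, a n = true) ∧
      ∀ a ∈ F, ∀ c l, ∃ b ∈ F, (∀ i < l, b i = a i) ∧ ∃ p ∈ B c, l ≤ p ∧ b p = false := by
  classical
  set Z := upSet U with hZ
  have hZc : IsClosed Z := isClosed_upSet hU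
  have h0 : ∀ c, ¬ Z ⊆ ⋃ m, Kset B c m := by
    intro c hc
    refine hno ⟨B c, hB.infinite c, fun x => ?_⟩
    have h1 : (fun n => decide (x ∈ U n)) ∈ Z := ⟨x, fun n hn => by simpa using hn⟩
    obtain ⟨m, hm⟩ := mem_iUnion.1 (hc h1)
    refine (Set.finite_lt_nat m).subset ?_
    rintro n ⟨hn, hn'⟩
    change n < m
    by_contra h2
    have h3 := hm n hn (not_lt.1 h2)
    exact hn' (by simpa using h3)
  let 𝓥 := TopologicalSpace.countableBasis (ℕ → Bool)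
  have h𝓥 : TopologicalSpace.IsTopologicalBasis 𝓥 := TopologicalSpace.isBasis_countableBasis _
  let 𝓦 : Set (Set (ℕ → Bool)) := {V | V ∈ 𝓥 ∧ ∃ c, V ∩ Z ⊆ ⋃ m, Kset B c m}
  have h𝓦c : 𝓦.Countable := (TopologicalSpace.countable_countableBasis (ℕ → Bool)).mono fun V hV => hV.1
  have hch : ∀ V, V ∈ 𝓦 → ∃ c, V ∩ Z ⊆ ⋃ m, Kset B c m := fun V hV => hV.2
  choose! cV hcV using hch
  obtain ⟨c₀, hc₀⟩ := hlow (cV '' 𝓦) (h𝓦c.image cV)
  have hG : ∀ a ∈ ⋃₀ 𝓦, a ∈ Z → a ∈ ⋃ m, Kset B c₀ m := by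
    rintro a ⟨V, hV, haV⟩ haZ
    exact iUnion_Kset_mono (hc₀ _ ⟨V, hV, rfl⟩) (hcV V hV ⟨haV, haZ⟩)
  have hGo : IsOpen (⋃₀ 𝓦) := isOpen_sUnion fun V hV => h𝓥.isOpen hV.1
  set F := Z \ ⋃₀ 𝓦 with hF
  have hFc : IsClosed F := hZc.sdiff hGo
  have hFne : F.Nonempty := by
    rw [nonempty_iff_ne_empty]
    intro h1
    refine h0 c₀ fun a ha => hG a ?_ ha
    by_contra h2
    have : a ∈ F := ⟨ha, h2⟩
    rw [h1] at this
    exact this
  have hFK : ∀ V : Set (ℕ → Bool), IsOpen V → (V ∩ F).Nonempty → ∀ c,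
      ¬ V ∩ F ⊆ ⋃ m, Kset B c m := by
    rintro V hV ⟨a, haV, haF⟩ c hc
    obtain ⟨V', hV', haV', hV'V⟩ := h𝓥.exists_subset_of_mem_open haV hV
    obtain ⟨c', hc'⟩ := hlow {c₀, c} ((Set.countable_singleton c).insert c₀)
    refine haF.2 ⟨V', ⟨hV', c', ?_⟩, haV'⟩
    rintro b ⟨hb1, hb2⟩
    by_cases hb3 : b ∈ ⋃₀ 𝓦
    · exact iUnion_Kset_mono (hc' c₀ (by simp)) (hG b hb3 hb2)
    · exact iUnion_Kset_mono (hc' c (by simp)) (hc ⟨hV'V hb1, hb2, hb3⟩)
  refine ⟨F, hFc, hFne, fun a ha => ?_, fun a ha c l => ?_⟩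
  · obtain ⟨x, hx⟩ := ha.1
    exact ⟨x, fun n hn => hx n (hB.subset x hn)⟩
  · obtain ⟨b, ⟨hb1, hb2⟩, hb3⟩ := Set.not_subset.1 (hFK (PiNat.cylinder a l)
      (PiNat.isOpen_cylinder _ a l) ⟨a, PiNat.self_mem_cylinder _ _, ha⟩ c)
    refine ⟨b, hb2, hb1, ?_⟩
    by_contra h1
    push Not at h1
    refine hb3 (mem_iUnion.2 ⟨l, fun n hn hn' => ?_⟩)
    simpa using h1 n hn hn'

/-- the levels below which each node of level `l` can be extended so as to miss a member of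
`B c` -/
def levels (B : (ℕ → Bool) → Set ℕ) (F : Set (ℕ → Bool)) (c : ℕ → Bool) (l : ℕ) : Set ℕ :=
  {q | ∀ a ∈ F, ∃ b ∈ F, (∀ i < l, b i = a i) ∧ ∃ p ∈ B c, l ≤ p ∧ p < q ∧ b p = false}

/-- the least such level -/
noncomputable def height (B : (ℕ → Bool) → Set ℕ) (F : Set (ℕ → Bool)) (c : ℕ → Bool) (l : ℕ) : ℕ :=
  sInf (levels B F c l)

lemma height_mem {F : Set (ℕ → Bool)} (c : ℕ → Bool)
    (hF : ∀ a ∈ F, ∀ l, ∃ b ∈ F, (∀ i < l, b i = a i) ∧ ∃ p ∈ B c, l ≤ p ∧ b p = false) (l : ℕ) :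
    height B F c l ∈ levels B F c l := by
  classical
  refine Nat.sInf_mem ?_
  have h1 : ∀ s : Fin l → Bool, ∃ q : ℕ, ∀ a ∈ F, (∀ i : Fin l, a i = s i) →
      ∃ b ∈ F, (∀ i < l, b i = a i) ∧ ∃ p ∈ B c, l ≤ p ∧ p < q ∧ b p = false := by
    intro s
    by_cases h : ∃ a ∈ F, ∀ i : Fin l, a i = s i
    · obtain ⟨a, ha, has⟩ := h
      obtain ⟨b, hb, hba, p, hp, hlp, hbp⟩ := hF a ha l
      refine ⟨p + 1, fun a' ha' has' => ⟨b, hb, fun i hi => ?_, p, hp, hlp, Nat.lt_succ_self p,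
        hbp⟩⟩
      rw [hba i hi]
      exact (has ⟨i, hi⟩).trans (has' ⟨i, hi⟩).symm
    · exact ⟨0, fun a ha has => absurd ⟨a, ha, has⟩ h⟩
  choose q hq using h1
  refine ⟨Finset.univ.sup q, fun a ha => ?_⟩
  obtain ⟨b, hb, hba, p, hp, hlp, hpq, hbp⟩ := hq (fun i => a i) a ha fun i => rfl
  exact ⟨b, hb, hba, p, hp, hlp, lt_of_lt_of_le hpq
    (Finset.le_sup (f := q) (Finset.mem_univ (fun i : Fin l => a i))), hbp⟩

lemma monotone_height {F : Set (ℕ → Bool)} (c : ℕ → Bool)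
    (hF : ∀ a ∈ F, ∀ l, ∃ b ∈ F, (∀ i < l, b i = a i) ∧ ∃ p ∈ B c, l ≤ p ∧ b p = false) :
    Monotone (height B F c) := by
  intro l l' hl
  refine Nat.sInf_le fun a ha => ?_
  obtain ⟨b, hb, hba, p, hp, hlp, hpq, hbp⟩ := height_mem c hF l' a ha
  exact ⟨b, hb, fun i hi => hba i (lt_of_lt_of_le hi hl), p, hp, hl.trans hlp, hpq, hbp⟩

lemma height_le_height {F : Set (ℕ → Bool)} {c c' : ℕ → Bool}
    (hF : ∀ a ∈ F, ∀ l, ∃ b ∈ F, (∀ i < l, b i = a i) ∧ ∃ p ∈ B c, l ≤ p ∧ b p = false)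
    {M : ℕ} (hM : ∀ p ∈ B c, M ≤ p → p ∈ B c') {l : ℕ} (hl : M ≤ l) :
    height B F c' l ≤ height B F c l := by
  refine Nat.sInf_le fun a ha => ?_
  obtain ⟨b, hb, hba, p, hp, hlp, hpq, hbp⟩ := height_mem c hF l a ha
  exact ⟨b, hb, hba, p, hM p hp (hl.trans hlp), hlp, hpq, hbp⟩

lemma lt_height {F : Set (ℕ → Bool)} (hne : F.Nonempty) (c : ℕ → Bool)
    (hF : ∀ a ∈ F, ∀ l, ∃ b ∈ F, (∀ i < l, b i = a i) ∧ ∃ p ∈ B c, l ≤ p ∧ b p = false) (l : ℕ) :
    l < height B F c l := by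
  obtain ⟨a, ha⟩ := hne
  obtain ⟨b, hb, hba, p, hp, hlp, hpq, hbp⟩ := height_mem c hF l a ha
  exact lt_of_le_of_lt hlp hpq

end closed

/-- A strictly increasing sequence growing faster than `g`. -/
lemma exists_seq (g : ℕ → ℕ) : ∃ j : ℕ → ℕ, StrictMono j ∧ ∀ m n, n ≤ j m → g n ≤ j (m + 1) := by
  let g' : ℕ → ℕ := fun n => ∑ i ∈ Finset.range (n + 1), g i + n + 1
  let j : ℕ → ℕ := fun m => Nat.rec 0 (fun _ a => g' a) m
  have hj : ∀ m, j (m + 1) = g' (j m) := fun m => rfl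
  refine ⟨j, strictMono_nat_of_lt_succ fun m => ?_, fun m n hn => ?_⟩
  · rw [hj]
    simp only [g']
    omega
  · rw [hj]
    have h1 : g n ≤ ∑ i ∈ Finset.range (j m + 1), g i :=
      Finset.single_le_sum (f := g) (fun i _ => Nat.zero_le _)
        (Finset.mem_range.2 (Nat.lt_succ_of_le hn))
    simp only [g']
    omega

lemma frequently_of_two_steps {h g j : ℕ → ℕ} (hh : Monotone h) (hj : StrictMono j)
    (hg : ∀ m n, n ≤ j m → g n ≤ j (m + 1)) (hfr : ∃ᶠ n in atTop, h (h n) < g n) :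
    ∃ᶠ m in atTop, h (j m) ≤ j (m + 1) := by
  classical
  rw [frequently_atTop] at hfr ⊢
  intro N
  obtain ⟨n, hn, hn'⟩ := hfr (j N)
  have hex : ∃ k, n < j k := ⟨n + 1, lt_of_lt_of_le (Nat.lt_succ_self n) (hj.id_le (n + 1))⟩
  have h1 : n < j (Nat.find hex) := Nat.find_spec hex
  have h2 : N < Nat.find hex := by
    by_contra h3
    exact absurd (lt_of_lt_of_le h1 (hj.monotone (not_lt.1 h3))) (not_lt.2 hn)
  obtain ⟨m, hm⟩ : ∃ m, Nat.find hex = m + 1 := ⟨Nat.find hex - 1, by omega⟩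
  rw [hm] at h1 h2
  have h3 : j m ≤ n := not_lt.1 (Nat.find_min hex (by omega : m < Nat.find hex))
  have h4 : g n ≤ j (m + 1 + 1) := hg (m + 1) n h1.le
  rcases le_total (h n) (j (m + 1)) with h5 | h5
  · exact ⟨m, by omega, (hh h3).trans h5⟩
  · exact ⟨m + 1, by omega, (hh h5).trans (hn'.le.trans h4)⟩

section main

variable {U : ℕ → Set (ℕ → Bool)} {B : (ℕ → Bool) → Set ℕ}

lemma coinitiality_mem : ∃ S : Set (ℕ → Bool), (∀ x, ∃ s ∈ S, (B s \ B x).Finite) ∧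
    Cardinal.mk S = coinitiality B := by
  have hne : {κ | ∃ S : Set (ℕ → Bool), (∀ x, ∃ s ∈ S, (B s \ B x).Finite) ∧
      Cardinal.mk S = κ}.Nonempty := ⟨_, Set.univ, fun x => ⟨x, mem_univ x, by simp⟩, rfl⟩
  exact csInf_mem hne

lemma domNum_mem : ∃ D : Set (ℕ → ℕ), (∀ f : ℕ → ℕ, ∃ g ∈ D, ∀ᶠ n in atTop, f n ≤ g n) ∧
    Cardinal.mk D = domNum := by
  have hne : {κ | ∃ D : Set (ℕ → ℕ), (∀ f : ℕ → ℕ, ∃ g ∈ D, ∀ᶠ n in atTop, f n ≤ g n) ∧
      Cardinal.mk D = κ}.Nonempty :=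
    ⟨_, Set.univ, fun f => ⟨f, mem_univ f, Eventually.of_forall fun n => le_rfl⟩, rfl⟩
  exact csInf_mem hne

lemma lower_of_card (hB : IsLinearRefinement U B) (A : Set (ℕ → Bool))
    (hA : Cardinal.mk A < coinitiality B) : ∃ x, ∀ a ∈ A, (B x \ B a).Finite := by
  by_contra h1
  push Not at h1
  refine absurd (csInf_le' ⟨A, fun x => ?_, rfl⟩ : coinitiality B ≤ Cardinal.mk A) (not_le.2 hA)
  obtain ⟨a, ha, ha'⟩ := h1 x
  exact ⟨a, ha, (hB.linear x a).resolve_left ha'⟩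

lemma unbNum_mem : ∃ D : Set (ℕ → ℕ), (∀ f : ℕ → ℕ, ∃ g ∈ D, ¬ ∀ᶠ n in atTop, g n ≤ f n) ∧
    Cardinal.mk D = unbNum := by
  have hne : {κ | ∃ D : Set (ℕ → ℕ), (∀ f : ℕ → ℕ, ∃ g ∈ D, ¬ ∀ᶠ n in atTop, g n ≤ f n) ∧
      Cardinal.mk D = κ}.Nonempty := by
    refine ⟨_, Set.univ, fun f => ⟨fun n => f n + 1, mem_univ _, fun h => ?_⟩, rfl⟩
    obtain ⟨n, hn⟩ := h.exists
    have hn' : f n + 1 ≤ f n := hn
    omega
  exact csInf_mem hne

lemma unbNum_le_domNum : unbNum ≤ domNum := by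
  obtain ⟨D, hD, hDc⟩ := domNum_mem
  rw [← hDc]
  refine csInf_le' ⟨D, fun f => ?_, rfl⟩
  obtain ⟨g, hg, hg'⟩ := hD fun n => f n + 1
  refine ⟨g, hg, fun h => ?_⟩
  obtain ⟨n, hn, hn'⟩ := (hg'.and h).exists
  omega

lemma exists_coinitial (hB : IsLinearRefinement U B) (h : (ℕ → Bool) → ℕ → ℕ)
    (hmono : ∀ c, Monotone (h c)) (hlt : ∀ c l, l < h c l)
    (hcomp : ∀ c c', (B c \ B c').Finite → ∃ M, ∀ l, M ≤ l → h c' l ≤ h c l)
    (hκ : coinitiality B < domNum ∨ unbNum < coinitiality B) :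
    ∃ (S : Set (ℕ → Bool)) (j : ℕ → ℕ), StrictMono j ∧ (∀ x, ∃ s ∈ S, (B s \ B x).Finite) ∧
      ∀ c ∈ S, ∃ᶠ m in atTop, h c (j m) ≤ j (m + 1) := by
  classical
  obtain ⟨S, hS, g, hg⟩ : ∃ S : Set (ℕ → Bool), (∀ x, ∃ s ∈ S, (B s \ B x).Finite) ∧
      ∃ g : ℕ → ℕ, ∀ c ∈ S, ∃ᶠ n in atTop, h c (h c n) < g n := by
    rcases hκ with hκ | hκ
    · obtain ⟨S, hS, hSc⟩ := coinitiality_mem (B := B)
      refine ⟨S, hS, ?_⟩
      by_contra h1
      push Not at h1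
      refine absurd (csInf_le' ⟨(fun c n => h c (h c n)) '' S, fun f => ?_, rfl⟩ :
        domNum ≤ Cardinal.mk ((fun c n => h c (h c n)) '' S)) (not_le.2 ?_)
      · obtain ⟨c, hc, hc'⟩ := h1 f
        exact ⟨_, ⟨c, hc, rfl⟩, hc'⟩
      · exact lt_of_le_of_lt Cardinal.mk_image_le (hSc ▸ hκ)
    · refine ⟨univ, fun x => ⟨x, mem_univ x, by simp⟩, ?_⟩
      by_contra h1
      push Not at h1
      obtain ⟨D, hD, hDc⟩ := unbNum_mem
      choose ξ _ hξ using h1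
      obtain ⟨x, hx⟩ := lower_of_card hB (ξ '' D) (lt_of_le_of_lt Cardinal.mk_image_le
        (hDc ▸ hκ))
      obtain ⟨g, hg, hg'⟩ := hD fun n => h x (h x n)
      refine hg' ?_
      obtain ⟨M, hM⟩ := hcomp x (ξ g) (hx _ ⟨g, hg, rfl⟩)
      filter_upwards [hξ g, eventually_ge_atTop M] with n hn hn'
      refine hn.trans ((hmono (ξ g) (hM n hn')).trans (hM _ ?_))
      exact hn'.trans (hlt x n).le
  obtain ⟨j, hj1, hj2⟩ := exists_seq g
  exact ⟨S, j, hj1, hS, fun c hc => frequently_of_two_steps (hmono c) hj1 hj2 (hg c hc)⟩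

/-- The explicit cover is a tau-star cover, as soon as some open cover without gamma-subcover has a
linear refinement of coinitiality less than `d` or greater than `b`. -/
theorem tauStar_Ustar_of_refinement (e : ℕ ≃ Idx) (hU : ∀ n, IsOpen (U n))
    (hB : IsLinearRefinement U B) (hno : ¬ HasGammaSubcover U)
    (hκ : coinitiality B < domNum ∨ unbNum < coinitiality B) :
    IsTauStarCover (Ustar e) := by
  classical
  have hlow : ∀ S : Set (ℕ → Bool), S.Countable → ∃ x, ∀ s ∈ S, (B x \ B s).Finite := by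
    intro S hS
    by_contra h1
    push Not at h1
    refine hno (gamma_of_countable hB S hS fun x => ?_)
    obtain ⟨s, hs, hs'⟩ := h1 x
    exact ⟨s, hs, (hB.linear x s).resolve_left hs'⟩
  obtain ⟨F, hFc, hFne, hF1, hF2⟩ := exists_closed hU hB hlow hno
  have hF2' : ∀ c, ∀ a ∈ F, ∀ l, ∃ b ∈ F, (∀ i < l, b i = a i) ∧
      ∃ p ∈ B c, l ≤ p ∧ b p = false := fun c a ha l => hF2 a ha c l
  have hh : ∀ c l, ∀ a ∈ F, ∃ b ∈ F, (∀ i < l, b i = a i) ∧
      ∃ p ∈ B c, l ≤ p ∧ p < height B F c l ∧ b p = false := fun c l =>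
    height_mem c (hF2' c) l
  obtain ⟨S, j, hj, hS, hSj⟩ := exists_coinitial hB (height B F)
    (fun c => monotone_height c (hF2' c)) (fun c => lt_height hFne c (hF2' c))
    (fun c c' hcc => by
      obtain ⟨M, hM⟩ := hcc.bddAbove
      refine ⟨M + 1, fun l hl => height_le_height (hF2' c) (M := M + 1) (fun p hp hp' => ?_) hl⟩
      by_contra h1
      have := hM ⟨hp, h1⟩
      omega) hκ
  have hpos : ∀ m, 0 < j (m + 1) := fun m => lt_of_le_of_lt (Nat.zero_le _) (hj (Nat.lt_succ_self m))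
  have hnon : ∀ m, Nonempty ((Fin (j m) → Bool) → Fin (j (m + 1))) := fun m =>
    ⟨fun _ => ⟨0, hpos m⟩⟩
  let T : S → Set (Σ m, ((Fin (j m) → Bool) → Fin (j (m + 1)))) := fun c =>
    {q | ∀ a ∈ F, ((q.2 fun i => a i : Fin (j (q.1 + 1))) : ℕ) ∈ B c.1 ∧
      j q.1 ≤ ((q.2 fun i => a i : Fin (j (q.1 + 1))) : ℕ) ∧
      ∃ b ∈ F, (∀ i : Fin (j q.1), b i = a i) ∧
        b ((q.2 fun i => a i : Fin (j (q.1 + 1))) : ℕ) = false}
  refine tauStar_of_columns e (fun m => (Fin (j m) → Bool) → Fin (j (m + 1))) T ?_ ?_ ?_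
  · rintro ⟨c, hc⟩
    refine Set.Infinite.of_image (fun q => q.1) ?_
    refine Set.infinite_of_forall_exists_gt fun N => ?_
    obtain ⟨m, hm, hm'⟩ := frequently_atTop.1 (hSj c hc) (N + 1)
    have h1 : ∀ s : Fin (j m) → Bool, ∃ p : Fin (j (m + 1)), ∀ a ∈ F, (fun i : Fin (j m) => a i) = s →
        (p : ℕ) ∈ B c ∧ j m ≤ p ∧ ∃ b ∈ F, (∀ i : Fin (j m), b i = a i) ∧ b p = false := by
      intro s
      by_cases h2 : ∃ a ∈ F, (fun i : Fin (j m) => a i) = s
      · obtain ⟨a, ha, has⟩ := h2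
        obtain ⟨b, hb, hba, p, hp, hlp, hph, hbp⟩ := hh c (j m) a ha
        refine ⟨⟨p, lt_of_lt_of_le hph hm'⟩, fun a' ha' has' => ⟨hp, hlp, b, hb, fun i => ?_, hbp⟩⟩
        rw [hba i i.2]
        exact congrFun (has.trans has'.symm) i
      · exact ⟨⟨0, hpos m⟩, fun a ha has => absurd ⟨a, ha, has⟩ h2⟩
    choose σ hσ using h1
    exact ⟨m, ⟨⟨m, σ⟩, fun a ha => hσ _ a ha rfl, rfl⟩, hm⟩
  · have key : ∀ c c' : S, (B c \ B c').Finite → (T c \ T c').Finite := by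
      intro c c' hcc
      obtain ⟨M, hM⟩ := hcc.bddAbove
      refine ((Set.finite_le_nat M).biUnion fun m _ =>
        (toFinite (univ : Set ((Fin (j m) → Bool) → Fin (j (m + 1))))).image (Sigma.mk m)).subset ?_
      rintro ⟨m, σ⟩ ⟨hq1, hq2⟩
      refine mem_biUnion (show m ∈ {i | i ≤ M} from ?_) ⟨σ, mem_univ _, rfl⟩
      have h1 : ∃ a ∈ F, ((σ fun i => a i : Fin (j (m + 1))) : ℕ) ∉ B c' := by
        by_contra h2
        push Not at h2
        exact hq2 fun a ha => ⟨h2 a ha, (hq1 a ha).2⟩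
      obtain ⟨a, ha, ha'⟩ := h1
      have h2 : ((σ fun i => a i : Fin (j (m + 1))) : ℕ) ≤ M := hM ⟨(hq1 a ha).1, ha'⟩
      have h3 : j m ≤ ((σ fun i => a i : Fin (j (m + 1))) : ℕ) := (hq1 a ha).2.1
      exact (hj.id_le m).trans (h3.trans h2)
    intro c c'
    rcases hB.linear c c' with h1 | h1
    · exact Or.inl (key c c' h1)
    · exact Or.inr (key c' c h1)
  · intro f
    obtain ⟨a, ha, hbr⟩ := exists_branch hFc hFne hj f
    obtain ⟨x, hx⟩ := hF1 a ha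
    obtain ⟨s, hs, hs'⟩ := hS x
    refine ⟨⟨s, hs⟩, ?_⟩
    obtain ⟨M, hM⟩ := hs'.bddAbove
    refine (Set.finite_le_nat M).subset ?_
    intro m hm
    obtain ⟨h1, h2, h3⟩ := hm a ha
    have h4 : a (f m fun i => a i) = false := hbr m h3
    have h5 : ((f m fun i => a i : Fin (j (m + 1))) : ℕ) ≤ M := by
      refine hM ⟨h1, fun h6 => ?_⟩
      have h7 := hx _ h6
      rw [h4] at h7
      exact Bool.false_ne_true h7
    exact (hj.id_le m).trans (h2.trans h5)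

end main

/-- Unless `b = d` and this cardinal is the length of a tower, the question Q1 is about one explicit
cover. -/
theorem cantorSatisfies_iff (e : ℕ ≃ Idx) (hd : unbNum < domNum ∨ ¬ HasTower domNum) :
    CantorSatisfiesTauStarGamma ↔ ¬ IsTauStarCover (Ustar e) := by
  constructor
  · intro h1 h2
    exact not_gamma_Ustar e (h1 _ h2)
  · intro h1 U hU
    by_contra hno
    obtain ⟨B, hB⟩ := hU.refinable
    refine h1 (tauStar_Ustar_of_refinement e hU.isOpen hB hno ?_)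
    rcases lt_trichotomy (coinitiality B) domNum with h2 | h2 | h2
    · exact Or.inl h2
    · right
      rcases hd with hd | hd
      · rw [h2]
        exact hd
      · exact absurd (h2 ▸ (tower_of_not_gamma hB hno).2) hd
    · exact Or.inr (lt_of_le_of_lt unbNum_le_domNum h2)

end Pool.Agent.TSN
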