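import Pool.Agent.TSN.SN

/-!
# The cover is tau-star on small unions of translates of a set of measure one
-/

set_option autoImplicit false

namespace Pool.Agent.TSN

open Set MeasureTheory Pool.Agent.TauStar

/-- The fair coin measure on the Cantor space. -/
noncomputable def coinMeasure : Measure (ℕ → Bool) :=
  Measure.infinitePi (fun _ : ℕ => (PMF.uniformOfFintype Bool).toMeasure)

/-- The set `G`: with the coordinates of `x` arranged, by `⟨m, ⟨i, j⟩⟩`, into words
`x_(m,i) = (x_(m,i,0), …, x_(m,i,m))`, the points `x` such that for all but finitely many `m` none of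
the words `x_(m,0), …, x_(m,m)` is the zero word. -/
def GG : Set (ℕ → Bool) :=
  {x | ∃ N, ∀ m, N ≤ m → ∀ i : Fin (m + 1), ∃ j : Fin (m + 1),
    x (Nat.pair m (Nat.pair i j)) = true}

/-- The sum of two points of the Cantor space, coordinatewise modulo 2. -/
def xadd (x z : ℕ → Bool) : ℕ → Bool := fun n => xor (x n) (z n)

lemma coin_false : (PMF.uniformOfFintype Bool).toMeasure {false} = 2⁻¹ := by
  rw [PMF.toMeasure_uniformOfFintype_apply _ (measurableSet_singleton _)]
  simp

lemma coin_word (m i : ℕ) :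
    coinMeasure {x | ∀ j : Fin (m + 1), x (Nat.pair m (Nat.pair i j)) = false} = 2⁻¹ ^ (m + 1) := by
  classical
  have hinj : Function.Injective fun j : Fin (m + 1) => Nat.pair m (Nat.pair i j) := by
    intro j j' h
    simp only [Nat.pair_eq_pair, true_and] at h
    exact Fin.ext h
  have h1 : {x : ℕ → Bool | ∀ j : Fin (m + 1), x (Nat.pair m (Nat.pair i j)) = false} =
      Set.pi ((Finset.univ.image fun j : Fin (m + 1) => Nat.pair m (Nat.pair i j) : Finset ℕ) :
        Set ℕ) (fun _ => {false}) := by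
    ext x
    simp [Set.mem_pi]
  rw [h1, coinMeasure, Measure.infinitePi_pi _ (fun _ _ => measurableSet_singleton _)]
  simp only [coin_false, Finset.prod_const]
  rw [Finset.card_image_of_injective _ hinj, Finset.card_univ, Fintype.card_fin]

theorem measure_GG : ∀ᵐ x ∂coinMeasure, x ∈ GG := by
  have hs : ∑' m : ℕ, coinMeasure {x : ℕ → Bool | ∃ i : Fin (m + 1), ∀ j : Fin (m + 1),
      x (Nat.pair m (Nat.pair i j)) = false} ≠ ⊤ := by
    have hle : ∀ m : ℕ, coinMeasure {x : ℕ → Bool | ∃ i : Fin (m + 1), ∀ j : Fin (m + 1),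
        x (Nat.pair m (Nat.pair i j)) = false} ≤
        ENNReal.ofReal (((m + 1 : ℕ) : ℝ) ^ 1 * (2⁻¹ : ℝ) ^ (m + 1)) := by
      intro m
      have h1 : {x : ℕ → Bool | ∃ i : Fin (m + 1), ∀ j : Fin (m + 1),
          x (Nat.pair m (Nat.pair i j)) = false} = ⋃ i : Fin (m + 1),
          {x : ℕ → Bool | ∀ j : Fin (m + 1), x (Nat.pair m (Nat.pair i j)) = false} := by
        ext x
        simp
      rw [h1]
      refine (measure_iUnion_fintype_le _ _).trans ?_
      simp only [coin_word, Finset.sum_const, Finset.card_univ, Fintype.card_fin, nsmul_eq_mul,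
        pow_one]
      rw [ENNReal.ofReal_mul (Nat.cast_nonneg _), ENNReal.ofReal_natCast,
        ENNReal.ofReal_pow (by norm_num), ENNReal.ofReal_inv_of_pos (by norm_num)]
      simp
    have hsum : Summable fun m : ℕ => ((m + 1 : ℕ) : ℝ) ^ 1 * (2⁻¹ : ℝ) ^ (m + 1) := by
      have := summable_pow_mul_geometric_of_norm_lt_one 1 (r := (2⁻¹ : ℝ)) (by norm_num)
      exact (summable_nat_add_iff 1).2 this
    exact ne_top_of_le_ne_top hsum.tsum_ofReal_ne_top (ENNReal.tsum_le_tsum hle)
  filter_upwards [ae_eventually_notMem hs] with x hx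
  obtain ⟨N, hN⟩ := Filter.eventually_atTop.1 hx
  refine ⟨N, fun m hm i => ?_⟩
  by_contra h
  push Not at h
  exact hN m hm ⟨i, fun j => by simpa using h j⟩

lemma evades_iff (x z : ℕ → Bool) : xadd x z ∈ GG ↔ Evades (fun m => m) z x := by
  constructor
  · rintro ⟨N, hN⟩
    refine ⟨N, fun m hm i h => ?_⟩
    obtain ⟨j, hj⟩ := hN m hm i
    have h1 := congrFun h j
    simp only [blk] at h1
    simp [xadd, h1] at hj
  · rintro ⟨N, hN⟩
    refine ⟨N, fun m hm i => ?_⟩
    by_contra h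
    push Not at h
    refine hN m hm i (funext fun j => ?_)
    have h1 := h j
    simp only [blk]
    simp only [xadd] at h1
    cases hx : x (Nat.pair m (Nat.pair i j)) <;> cases hz : z (Nat.pair m (Nat.pair i j)) <;>
      simp [hx, hz] at h1 ⊢

/-- ZFC: the fixed clopen cover is tau-star on `Z ∪ (G + Z)` for each set `Z` of at most `p`
points. -/
theorem exists_cover_translates : ∃ U : ℕ → Set (ℕ → Bool), (∀ n, IsClopen (U n)) ∧
    Function.Injective U ∧ (∀ n, U n ≠ univ) ∧ (∀ x, {n | x ∈ U n}.Infinite) ∧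
    ¬ HasGammaSubcover U ∧ ∀ X Z : Set (ℕ → Bool), Cardinal.mk Z ≤ pNum →
      (∀ x ∈ X, x ∈ Z ∨ ∃ z ∈ Z, xadd x z ∈ GG) →
      ∃ B : (ℕ → Bool) → Set ℕ, (∀ x ∈ X, B x ⊆ {n | x ∈ U n} ∧ (B x).Infinite) ∧
        ∀ x ∈ X, ∀ y ∈ X, (B x \ B y).Finite ∨ (B y \ B x).Finite := by
  classical
  obtain ⟨e, h1, h2, h3, h4, h5, h6⟩ := exists_cover2 (fun m => m)
  refine ⟨_, h1, h2, h3, h4, h5, fun X Z hZ hX => ?_⟩
  let neg : (ℕ → Bool) → (ℕ → Bool) := fun z n => !(z n)
  have hneg : ∀ x, Evades (fun m => m) (neg x) x := by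
    intro x
    refine ⟨0, fun m _ i h => ?_⟩
    have h7 := congrFun h 0
    simp [blk, neg] at h7
  have hps : ∀ κ : Cardinal.{0}, κ < Cardinal.mk (Z ∪ neg '' Z : Set (ℕ → Bool)) →
      ∀ A : Set (Set ℕ), Cardinal.mk A ≤ max κ Cardinal.aleph0 → Centered A →
        HasPseudoIntersection A := by
    intro κ hκ A hA hc
    refine hasPseudoIntersection_of_card hc ?_
    rcases le_max_iff.1 hA with h | h
    · rcases le_or_gt (Cardinal.mk A) Cardinal.aleph0 with hA0 | hA0
      · exact Or.inl hA0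
      · right
        have h7 : Cardinal.mk (Z ∪ neg '' Z : Set (ℕ → Bool)) ≤ Cardinal.mk Z + Cardinal.mk Z :=
          (Cardinal.mk_union_le _ _).trans (add_le_add le_rfl Cardinal.mk_image_le)
        have h8 : Cardinal.mk A < Cardinal.mk Z + Cardinal.mk Z :=
          lt_of_le_of_lt h (lt_of_lt_of_le hκ h7)
        have h9 : Cardinal.aleph0 ≤ Cardinal.mk Z := by
          by_contra h10
          have h10 := not_le.1 h10
          exact absurd (hA0.trans h8) (not_lt.2 (Cardinal.add_lt_aleph0 h10 h10).le)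
        rw [Cardinal.add_eq_self h9] at h8
        exact lt_of_lt_of_le h8 hZ
    · exact Or.inl h
  obtain ⟨B, hB1, hB2⟩ := h6 (Z ∪ neg '' Z) hps
  have hev : ∀ x ∈ X, ∃ y ∈ Z ∪ neg '' Z, Evades (fun m => m) y x := by
    intro x hx
    rcases hX x hx with h | ⟨z, hz, h⟩
    · exact ⟨neg x, Or.inr ⟨x, h, rfl⟩, hneg x⟩
    · exact ⟨z, Or.inl hz, (evades_iff x z).1 h⟩
  exact ⟨B, fun x hx => hB1 x (hev x hx), fun x hx y hy => hB2 x y (hev x hx) (hev y hy)⟩

end Pool.Agent.TSN
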