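import Pool.Agent.TSN.Tower
import Pool.Agent.TauStar.Category

/-!
# Q1 fails if some set of size `p` is not of strong measure zero
-/

set_option autoImplicit false

namespace Pool.Agent.TSN

open Set Pool.Agent.TauStar

/-- Strong measure zero subsets of the Cantor space: for each sequence `k` of natural numbers the
set is covered by cylinders given by words of length `k n`, one for each `n`. -/
def StrongMeasureZero (Y : Set (ℕ → Bool)) : Prop :=
  ∀ k : ℕ → ℕ, ∃ w : ℕ → (ℕ → Bool), ∀ y ∈ Y, ∃ n, ∀ j < k n, y j = w n j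

/-- `non(SN)`: the least cardinality of a subset of the Cantor space that is not of strong measure
zero. -/
noncomputable def nonSN : Cardinal.{0} :=
  sInf {κ | ∃ Y : Set (ℕ → Bool), ¬ StrongMeasureZero Y ∧ Cardinal.mk Y = κ}

lemma not_smz_univ : ¬ StrongMeasureZero (univ : Set (ℕ → Bool)) := by
  intro h
  obtain ⟨w, hw⟩ := h (fun n => n + 1)
  obtain ⟨n, hn⟩ := hw (fun n => !(w n n)) (mem_univ _)
  have := hn n (Nat.lt_succ_self n)
  simp at this

lemma nonSN_mem : ∃ Y : Set (ℕ → Bool), ¬ StrongMeasureZero Y ∧ Cardinal.mk Y = nonSN :=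
  csInf_mem (⟨_, univ, not_smz_univ, rfl⟩ :
    {κ | ∃ Y : Set (ℕ → Bool), ¬ StrongMeasureZero Y ∧ Cardinal.mk Y = κ}.Nonempty)

lemma nonSN_le_continuum : nonSN ≤ Cardinal.continuum := by
  have h : Cardinal.mk (univ : Set (ℕ → Bool)) = Cardinal.continuum := by simp
  rw [← h]
  exact csInf_le' ⟨univ, not_smz_univ, rfl⟩

/-- a set that is not of strong measure zero evades all points, for a suitable sequence `K` -/
lemma exists_evading {Y : Set (ℕ → Bool)} (hY : ¬ StrongMeasureZero Y) :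
    ∃ K : ℕ → ℕ, ∀ x : ℕ → Bool, ∃ y ∈ Y, ∀ m, ∀ i, blk K x m i ≠ pre K y m := by
  unfold StrongMeasureZero at hY
  push Not at hY
  obtain ⟨k, hk⟩ := hY
  let K : ℕ → ℕ := fun m => (Finset.range (m + 1)).sup fun i => k (Nat.pair m i)
  refine ⟨K, fun x => ?_⟩
  obtain ⟨y, hy, hy'⟩ := hk (fun n j => x (Nat.pair (Nat.unpair n).1 (Nat.pair (Nat.unpair n).2 j)))
  refine ⟨y, hy, fun m i h => ?_⟩
  obtain ⟨j, hj, hj'⟩ := hy' (Nat.pair m i)
  have h1 : k (Nat.pair m i) ≤ K m :=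
    Finset.le_sup (f := fun i => k (Nat.pair m i)) (Finset.mem_range.2 i.2)
  have h2 := congrFun h ⟨j, by omega⟩
  simp only [blk, pre] at h2
  apply hj'
  simp only [Nat.unpair_pair]
  exact h2.symm

lemma pseudo_of_le_pNum {Y : Set (ℕ → Bool)} (hY : Cardinal.mk Y ≤ pNum) (κ : Cardinal.{0})
    (hκ : κ < Cardinal.mk Y) (A : Set (Set ℕ)) (hA : Cardinal.mk A ≤ max κ Cardinal.aleph0)
    (hc : Centered A) : HasPseudoIntersection A := by
  refine hasPseudoIntersection_of_card hc ?_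
  rcases le_max_iff.1 hA with h | h
  · exact Or.inr (lt_of_le_of_lt h (lt_of_lt_of_le hκ hY))
  · exact Or.inl h

/-- Main theorem: `non(SN) ≤ p` refutes the positive answer to Q1. -/
theorem not_cantorSatisfies_of_nonSN (h : nonSN ≤ pNum) : ¬ CantorSatisfiesTauStarGamma := by
  obtain ⟨Y, hY, hYc⟩ := nonSN_mem
  obtain ⟨K, hK⟩ := exists_evading hY
  obtain ⟨e, h1, h2, h3, h4, h5, h6⟩ := exists_cover2 K
  choose ζ hζ using fun y : ℕ → Bool => exists_blk (K := K) (fun m _ => pre K y m)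
  obtain ⟨B, hB1, hB2⟩ := h6 (ζ '' Y)
    (pseudo_of_le_pNum (Cardinal.mk_image_le.trans (hYc.le.trans h)))
  have hev : ∀ x, ∃ y ∈ ζ '' Y, Evades K y x := fun x => by
    obtain ⟨y, hy, hy'⟩ := hK x
    refine ⟨ζ y, ⟨y, hy, rfl⟩, 0, fun m _ i => ?_⟩
    rw [hζ y m]
    exact hy' m i
  intro hQ
  exact h5 (hQ _ ⟨fun n => (h1 n).isOpen, h2, h3, h4, B, fun x => (hB1 x (hev x)).1,
    fun x => (hB1 x (hev x)).2, fun x y => hB2 x y (hev x) (hev y)⟩)

/-- all the negative cases -/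
theorem not_cantorSatisfies_all
    (h : Cardinal.continuum.{0} = Cardinal.aleph.{0} 1 ∨ nonSN ≤ pNum) :
    ¬ CantorSatisfiesTauStarGamma := by
  rcases h with h | h
  · exact not_cantorSatisfies (Or.inl h)
  · exact not_cantorSatisfies_of_nonSN h

end Pool.Agent.TSN
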