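import Mathlib
import Pool.Agent.TauStar.Defs
import Pool.Agent.TauStar.Tower

/-!
# Towers along small sets of evading points
-/

set_option autoImplicit false

namespace Pool.Agent.TSN

open Set Pool.Agent.TauStar

/-- Index set of the cover: pairs `(m, s)` with `s` an `(m+1)`-tuple of words of length `K m + 1`. -/
abbrev Id2 (K : ℕ → ℕ) := Σ m : ℕ, (Fin (m + 1) → Fin (K m + 1) → Bool)

/-- the `m`-th block of a point: `m+1` words of length `K m + 1` -/
def blk (K : ℕ → ℕ) (x : ℕ → Bool) (m : ℕ) : Fin (m + 1) → Fin (K m + 1) → Bool :=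
  fun i j => x (Nat.pair m (Nat.pair i j))

/-- the initial word of length `K m + 1` of a point -/
def pre (K : ℕ → ℕ) (y : ℕ → Bool) (m : ℕ) : Fin (K m + 1) → Bool := fun j => y j

variable {K : ℕ → ℕ}

lemma exists_blk (F : ∀ m : ℕ, Fin (m + 1) → Fin (K m + 1) → Bool) :
    ∃ x : ℕ → Bool, ∀ m, blk K x m = F m := by
  let φ : (Σ m : ℕ, Fin (m + 1) × Fin (K m + 1)) → ℕ :=
    fun p => Nat.pair p.1 (Nat.pair p.2.1 p.2.2)
  have hφ : Function.Injective φ := by
    rintro ⟨m, i, j⟩ ⟨m', i', j'⟩ h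
    simp only [φ, Nat.pair_eq_pair] at h
    obtain ⟨rfl, h2, h3⟩ := h
    obtain rfl : i = i' := Fin.ext h2
    obtain rfl : j = j' := Fin.ext h3
    rfl
  refine ⟨Function.extend φ (fun p => F p.1 p.2.1 p.2.2) (fun _ => false), fun m => ?_⟩
  funext i j
  exact hφ.extend_apply _ _ (⟨m, i, j⟩ : Σ m : ℕ, Fin (m + 1) × Fin (K m + 1))

/-- the members of the cover -/
def UU (K : ℕ → ℕ) (p : Id2 K) : Set (ℕ → Bool) := {x | blk K x p.1 ≠ p.2}

lemma isClopen_UU (p : Id2 K) : IsClopen (UU K p) := by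
  have hc : Continuous fun x : ℕ → Bool => blk K x p.1 :=
    continuous_pi fun i => continuous_pi fun j => continuous_apply _
  exact (isClopen_discrete ({p.2}ᶜ : Set (Fin (p.1 + 1) → Fin (K p.1 + 1) → Bool))).preimage hc

lemma UU_injective : Function.Injective (UU K) := by
  classical
  intro p q hpq
  by_contra hne
  obtain ⟨F, hF1, hF2⟩ : ∃ F : ∀ m : ℕ, Fin (m + 1) → Fin (K m + 1) → Bool,
      F p.1 = p.2 ∧ F q.1 ≠ q.2 := by
    by_cases h : p.1 = q.1
    · refine ⟨Function.update (fun n _ _ => false) p.1 p.2, by simp, ?_⟩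
      obtain ⟨n, s⟩ := p
      obtain ⟨m, t⟩ := q
      simp only at h
      subst h
      simp only [Function.update_self]
      rintro rfl
      exact hne rfl
    · refine ⟨Function.update (Function.update (fun n _ _ => false) q.1
        (fun _ _ => !(q.2 0 0))) p.1 p.2, by simp, ?_⟩
      rw [Function.update_of_ne (Ne.symm h), Function.update_self]
      intro h1
      have h2 := congrFun (congrFun h1 0) 0
      simp at h2
  obtain ⟨x, hx⟩ := exists_blk F
  have h1 : x ∉ UU K p := by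
    simp only [UU, mem_ofPred_eq, not_not, hx, hF1]
  rw [hpq] at h1
  simp only [UU, mem_ofPred_eq, not_not, hx] at h1
  exact hF2 h1

lemma UU_ne_univ (p : Id2 K) : UU K p ≠ univ := by
  classical
  obtain ⟨x, hx⟩ := exists_blk (K := K) (Function.update (fun n _ _ => false) p.1 p.2)
  intro h
  have h1 : x ∉ UU K p := by
    simp only [UU, mem_ofPred_eq, not_not, hx, Function.update_self]
  rw [h] at h1
  exact h1 (mem_univ _)

/-- the column of `T` over `n` -/
def col2 (T : Set (Id2 K)) (n : ℕ) : Set (Fin (n + 1) → Fin (K n + 1) → Bool) :=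
  {s | (⟨n, s⟩ : Id2 K) ∈ T}

/-- for every set of at most `k` tuples some tuple of `C` agrees with each of them in some place -/
def Cov (n k : ℕ) (C : Set (Fin (n + 1) → Fin (K n + 1) → Bool)) : Prop :=
  ∀ V : Finset (Fin (n + 1) → Fin (K n + 1) → Bool), V.card ≤ k →
    ∃ s ∈ C, ∀ w ∈ V, ∃ i, s i = w i

lemma Cov.mono {n k k' : ℕ} {C C' : Set (Fin (n + 1) → Fin (K n + 1) → Bool)}
    (h : Cov n k' C) (hk : k ≤ k') (hC : C ⊆ C') : Cov n k C' := by
  intro V hV
  obtain ⟨s, hs, h'⟩ := h V (hV.trans hk)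
  exact ⟨s, hC hs, h'⟩

/-- sets with columns of arbitrarily large covering number -/
def Big2 (T : Set (Id2 K)) : Prop := ∀ k N : ℕ, ∃ n, N ≤ n ∧ Cov n k (col2 T n)

lemma big2_univ : Big2 (univ : Set (Id2 K)) := by
  classical
  intro k N
  refine ⟨max k N, le_max_right _ _, ?_⟩
  intro V hV
  let e := V.equivFin
  refine ⟨fun i => if h : (i : ℕ) < V.card then
    (e.symm ⟨i, h⟩ : Fin (max k N + 1) → Fin (K (max k N) + 1) → Bool) i
    else fun _ => false, mem_univ _, ?_⟩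
  intro w hw
  have h1 : ((e ⟨w, hw⟩ : Fin V.card) : ℕ) < V.card := (e ⟨w, hw⟩).2
  have h2 : ((e ⟨w, hw⟩ : Fin V.card) : ℕ) < max k N + 1 :=
    lt_of_lt_of_le h1 (hV.trans ((le_max_left k N).trans (Nat.le_succ _)))
  refine ⟨⟨_, h2⟩, ?_⟩
  simp only [dif_pos h1, Fin.eta, Equiv.symm_apply_apply]

lemma Big2.infinite {T : Set (Id2 K)} (hT : Big2 T) : T.Infinite := by
  refine Set.Infinite.of_image (fun p : Id2 K => p.1) ?_
  refine Set.infinite_of_forall_exists_gt fun N => ?_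
  obtain ⟨n, hn, hn'⟩ := hT 0 (N + 1)
  obtain ⟨s, hs, -⟩ := hn' ∅ (by simp)
  exact ⟨n, ⟨⟨n, s⟩, hs, rfl⟩, hn⟩

/-- the indices `(m, s)` such that `s` agrees with the `m`-th block of `z` in some place -/
def RR (K : ℕ → ℕ) (z : ℕ → Bool) : Set (Id2 K) := {p | ∃ i, p.2 i = blk K z p.1 i}

lemma Big2.inter {T : Set (Id2 K)} (hT : Big2 T) (y : ℕ → Bool) : Big2 (T ∩ RR K y) := by
  classical
  intro k N
  obtain ⟨n, hn, hk⟩ := hT (k + 1) N
  refine ⟨n, hn, ?_⟩
  intro V hV
  obtain ⟨s, hs, hs'⟩ := hk (insert (blk K y n) V)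
    ((Finset.card_insert_le _ _).trans (by omega))
  refine ⟨s, ⟨hs, hs' _ (Finset.mem_insert_self _ _)⟩, fun w hw => hs' w (Finset.mem_insert_of_mem hw)⟩

/-- finite subsets of `T` inside one column beyond `k`, covering every set of `k` tuples -/
def Eset2 (T : Set (Id2 K)) (k : ℕ) : Set (Finset (Id2 K)) :=
  {a | (a : Set (Id2 K)) ⊆ T ∧ ∃ n, k ≤ n ∧ (∀ p ∈ a, p.1 = n) ∧
    Cov n k (col2 (a : Set (Id2 K)) n)}

lemma Big2.infinite_Eset2 {T : Set (Id2 K)} (hT : Big2 T) (k : ℕ) : (Eset2 T k).Infinite := by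
  classical
  refine Set.Infinite.of_image (fun a : Finset (Id2 K) => a.sup fun p => p.1) ?_
  refine Set.infinite_of_forall_exists_gt fun N => ?_
  obtain ⟨n, hn, hk⟩ := hT k (max k (N + 1))
  let ι : (Fin (n + 1) → Fin (K n + 1) → Bool) ↪ Id2 K :=
    ⟨fun s => (⟨n, s⟩ : Id2 K), fun s t h => by simpa using h⟩
  let a : Finset (Id2 K) := (toFinite (col2 T n)).toFinset.map ι
  have ha : ∀ p ∈ a, p.1 = n ∧ p ∈ T := by
    intro p hp
    simp only [a, ι, Finset.mem_map, Finite.mem_toFinset] at hp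
    obtain ⟨s, hs, rfl⟩ := hp
    exact ⟨rfl, hs⟩
  have hcol : col2 T n ⊆ col2 (a : Set (Id2 K)) n := by
    intro s hs
    change (⟨n, s⟩ : Id2 K) ∈ (a : Set (Id2 K))
    simp only [a, ι, Finset.coe_map, Finite.coe_toFinset]
    exact ⟨s, hs, rfl⟩
  refine ⟨a.sup fun p => p.1, ⟨a, ⟨fun p hp => (ha p hp).2, n, (le_max_left _ _).trans hn,
    fun p hp => (ha p hp).1, hk.mono le_rfl hcol⟩, rfl⟩, ?_⟩
  obtain ⟨s, hs, -⟩ := hk ∅ (by simp)
  have h0 : (⟨n, s⟩ : Id2 K) ∈ a := hcol hs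
  have h1 : n ≤ a.sup fun p => p.1 := Finset.le_sup (f := fun p : Id2 K => p.1) h0
  have h3 : N + 1 ≤ n := (le_max_right _ _).trans hn
  omega

lemma Eset2_subset {T T' : Set (Id2 K)} (h : (T' \ T).Finite) (k : ℕ) :
    ∃ k', k ≤ k' ∧ Eset2 T' k' ⊆ Eset2 T k := by
  obtain ⟨M, hM⟩ := (h.image fun p : Id2 K => p.1).bddAbove
  refine ⟨max k (M + 1), le_max_left _ _, ?_⟩
  rintro a ⟨ha, n, hn, hn', hc⟩
  refine ⟨?_, n, (le_max_left _ _).trans hn, hn', hc.mono (le_max_left _ _) subset_rfl⟩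
  intro p hp
  by_contra h1
  have h2 : p.1 ≤ M := hM ⟨p, ⟨ha hp, h1⟩, rfl⟩
  have h3 := hn' p hp
  have h4 : M + 1 ≤ n := (le_max_right _ _).trans hn
  omega

lemma Eset2_mono {T : Set (Id2 K)} {k k' : ℕ} (h : k ≤ k') : Eset2 T k' ⊆ Eset2 T k := by
  rintro a ⟨ha, n, hn, hn', hc⟩
  exact ⟨ha, n, h.trans hn, hn', hc.mono h subset_rfl⟩

lemma infinite_Id2 : Infinite (Id2 K) :=
  Infinite.of_injective (fun n : ℕ => (⟨n, fun _ _ => false⟩ : Id2 K))
    (fun _ _ h => congrArg Sigma.fst h)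

/-- The successor step of the tower construction. -/
lemma exists_big2_lower {κ : Cardinal.{0}} (hκ : Cardinal.aleph0 ≤ κ)
    (hp : ∀ A : Set (Set ℕ), Cardinal.mk A ≤ κ → Centered A → HasPseudoIntersection A)
    (𝒯 : Set (Set (Id2 K))) (hcard : Cardinal.mk 𝒯 ≤ κ) (hne : 𝒯.Nonempty)
    (hbig : ∀ T ∈ 𝒯, Big2 T) (hlin : ∀ T ∈ 𝒯, ∀ T' ∈ 𝒯, (T \ T').Finite ∨ (T' \ T).Finite) :
    ∃ T, Big2 T ∧ ∀ T' ∈ 𝒯, (T \ T').Finite := by
  classical
  have := infinite_Id2 (K := K)
  let φ : 𝒯 × ℕ → Set (Finset (Id2 K)) := fun p => Eset2 p.1 p.2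
  have hc1 : Cardinal.mk (range φ) ≤ κ := by
    refine Cardinal.mk_range_le.trans ?_
    rw [Cardinal.mk_prod, Cardinal.lift_id, Cardinal.mk_nat, Cardinal.lift_aleph0]
    exact (mul_le_mul' hcard hκ).trans (Cardinal.mul_eq_self hκ).le
  have hfin : ∀ F : Finset (Set (Finset (Id2 K))), (F : Set (Set (Finset (Id2 K)))) ⊆ range φ →
      ∃ T ∈ 𝒯, ∃ k, Eset2 T k ⊆ ⋂₀ (F : Set (Set (Finset (Id2 K)))) := by
    intro F
    induction F using Finset.induction_on with
    | empty =>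
      intro _
      obtain ⟨T, hT⟩ := hne
      exact ⟨T, hT, 0, by simp⟩
    | insert b F hb ih =>
      intro hF
      rw [Finset.coe_insert, insert_subset_iff] at hF
      obtain ⟨T, hT, k, hk⟩ := ih hF.2
      obtain ⟨⟨⟨T', hT'⟩, k'⟩, rfl⟩ := hF.1
      rw [Finset.coe_insert, sInter_insert]
      rcases hlin T hT T' hT' with h | h
      · obtain ⟨m, hm, hm'⟩ := Eset2_subset h k'
        exact ⟨T, hT, max k m, subset_inter ((Eset2_mono (le_max_right _ _)).trans hm')
          ((Eset2_mono (le_max_left _ _)).trans hk)⟩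
      · obtain ⟨m, hm, hm'⟩ := Eset2_subset h k
        exact ⟨T', hT', max k' m, subset_inter (Eset2_mono (le_max_left _ _))
          (((Eset2_mono (le_max_right _ _)).trans hm').trans hk)⟩
  obtain ⟨P, hP, hP'⟩ := transfer hp (range φ) hc1 (by
    intro F hF
    obtain ⟨T, hT, k, hk⟩ := hfin F hF
    exact ((hbig T hT).infinite_Eset2 k).mono hk)
  have hPE : ∀ T ∈ 𝒯, ∀ k, (P \ Eset2 T k).Finite := fun T hT k => hP' _ ⟨(⟨T, hT⟩, k), rfl⟩
  refine ⟨⋃ a ∈ P, (a : Set (Id2 K)), ?_, fun T hT => ?_⟩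
  · intro k N
    obtain ⟨T, hT⟩ := hne
    obtain ⟨a, haP, ha⟩ : ∃ a ∈ P, a ∈ Eset2 T (max k N) := by
      by_contra h1
      push Not at h1
      refine hP ((hPE T hT (max k N)).subset fun a ha => ⟨ha, h1 a ha⟩)
    obtain ⟨-, n, hn, hn', hc⟩ := ha
    refine ⟨n, (le_max_right _ _).trans hn, hc.mono (le_max_left _ _) ?_⟩
    intro s hs
    exact mem_biUnion haP hs
  · refine ((hPE T hT 0).biUnion fun a _ => a.finite_toSet).subset ?_
    rintro p ⟨hp1, hp2⟩
    obtain ⟨a, haP, hpa⟩ := mem_iUnion₂.1 hp1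
    refine mem_biUnion (⟨haP, fun h1 => hp2 (h1.1 hpa)⟩ : a ∈ P \ Eset2 T 0) hpa

/-- The tower: for each point `y` of `Y` a big set contained in `RR K y`, decreasing modulo finite
sets along a well-order of `Y`. -/
lemma exists_tower2 (Y : Set (ℕ → Bool))
    (hp : ∀ κ : Cardinal.{0}, κ < Cardinal.mk Y → ∀ A : Set (Set ℕ),
      Cardinal.mk A ≤ max κ Cardinal.aleph0 → Centered A → HasPseudoIntersection A) :
    ∃ T : Y → Set (Id2 K), (∀ y, Big2 (T y)) ∧ (∀ y, T y ⊆ RR K y.1) ∧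
      ∀ y z, (T y \ T z).Finite ∨ (T z \ T y).Finite := by
  classical
  obtain ⟨r, wo, hr⟩ := Cardinal.exists_ord_eq Y
  have hwf : WellFounded r := wo.wf
  let P : (x : Y) → ((y : Y) → r y x → Set (Id2 K)) → Set (Id2 K) → Prop :=
    fun x rec T => Big2 T ∧ T ⊆ RR K x.1 ∧ ∀ y (hy : r y x), (T \ rec y hy).Finite
  let F : (x : Y) → ((y : Y) → r y x → Set (Id2 K)) → Set (Id2 K) :=
    fun x rec => if h : ∃ T, P x rec T then h.choose else ∅
  let T : Y → Set (Id2 K) := hwf.fix F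
  have hT : ∀ x, Big2 (T x) ∧ T x ⊆ RR K x.1 ∧ ∀ y, r y x → (T x \ T y).Finite := by
    intro x
    induction x using hwf.induction with
    | _ x ih =>
      have hex : ∃ S, P x (fun y _ => T y) S := by
        have hlin : ∀ S ∈ insert univ (T '' {y | r y x}), ∀ S' ∈ insert univ (T '' {y | r y x}),
            (S \ S').Finite ∨ (S' \ S).Finite := by
          rintro S (rfl | ⟨y, hy, rfl⟩) S' (rfl | ⟨y', hy', rfl⟩)
          · simp
          · right; simp
          · left; simp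
          · rcases trichotomous_of r y y' with h | h | h
            · exact Or.inr ((ih y' hy').2.2 y h)
            · subst h; simp
            · exact Or.inl ((ih y hy).2.2 y' h)
        have hκ : Cardinal.mk {y | r y x} < Cardinal.mk Y := by
          have h2 := Cardinal.card_typein_lt (r := r) x hr
          rw [Ordinal.card_typein] at h2
          exact h2
        have hcard : Cardinal.mk (insert univ (T '' {y | r y x}) : Set (Set (Id2 K))) ≤
            max (Cardinal.mk {y | r y x}) Cardinal.aleph0 := by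
          refine Cardinal.mk_insert_le.trans ?_
          refine (add_le_add_left Cardinal.mk_image_le 1).trans ?_
          refine (add_le_add (le_max_left _ Cardinal.aleph0)
            (Cardinal.one_lt_aleph0.le.trans (le_max_right (Cardinal.mk {y | r y x}) _))).trans ?_
          exact (Cardinal.add_eq_self (le_max_right _ _)).le
        obtain ⟨S, hS, hS'⟩ := exists_big2_lower (le_max_right _ _)
          (hp (Cardinal.mk {y | r y x}) hκ) (insert univ (T '' {y | r y x})) hcard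
          ⟨univ, mem_insert _ _⟩ (by
            rintro S (rfl | ⟨y, hy, rfl⟩)
            · exact big2_univ
            · exact (ih y hy).1) hlin
        refine ⟨S ∩ RR K x.1, hS.inter x.1, inter_subset_right, fun y hy => ?_⟩
        refine (hS' (T y) (mem_insert_of_mem _ ⟨y, hy, rfl⟩)).subset ?_
        exact sdiff_subset_sdiff_left inter_subset_left
      have hTx : T x = F x (fun y _ => T y) := hwf.fix_eq F x
      have hTx' : T x = hex.choose := by rw [hTx]; exact dif_pos hex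
      have h1 := hex.choose_spec
      rw [← hTx'] at h1
      exact ⟨h1.1, h1.2.1, h1.2.2⟩
  refine ⟨T, fun x => (hT x).1, fun x => (hT x).2.1, fun x y => ?_⟩
  rcases trichotomous_of r x y with h | h | h
  · exact Or.inr ((hT y).2.2 x h)
  · subst h; simp
  · exact Or.inl ((hT x).2.2 y h)

/-- `y` evades `x`: for almost all `m` the `m`-th blocks of `x` and `y` have no word in common at the
same place -/
def Evades (K : ℕ → ℕ) (y x : ℕ → Bool) : Prop := ∃ N, ∀ m, N ≤ m → ∀ i, blk K x m i ≠ blk K y m i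

lemma Evades.finite {y x : ℕ → Bool} (h : Evades K y x) : (RR K y \ {p | x ∈ UU K p}).Finite := by
  obtain ⟨N, hN⟩ := h
  refine (((Set.finite_lt_nat N).image fun m => (⟨m, blk K x m⟩ : Id2 K))).subset ?_
  rintro ⟨m, s⟩ ⟨⟨i, hi⟩, hx⟩
  have hx' : blk K x m = s := by
    by_contra h1
    exact hx h1
  subst hx'
  refine ⟨m, ?_, rfl⟩
  change m < N
  by_contra h1
  exact hN m (not_lt.1 h1) i hi

/-- The cover, enumerated by natural numbers. -/
theorem exists_cover2 (K : ℕ → ℕ) : ∃ e : ℕ ≃ Id2 K, (∀ n, IsClopen (UU K (e n))) ∧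
    Function.Injective (fun n => UU K (e n)) ∧
    (∀ n, UU K (e n) ≠ univ) ∧ (∀ x, {n | x ∈ UU K (e n)}.Infinite) ∧
    ¬ HasGammaSubcover (fun n => UU K (e n)) ∧
    ∀ Y : Set (ℕ → Bool), (∀ κ : Cardinal.{0}, κ < Cardinal.mk Y → ∀ A : Set (Set ℕ),
      Cardinal.mk A ≤ max κ Cardinal.aleph0 → Centered A → HasPseudoIntersection A) →
      ∃ B : (ℕ → Bool) → Set ℕ,
        (∀ x, (∃ y ∈ Y, Evades K y x) → B x ⊆ {n | x ∈ UU K (e n)} ∧ (B x).Infinite) ∧
        ∀ x z, (∃ y ∈ Y, Evades K y x) → (∃ y ∈ Y, Evades K y z) →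
          (B x \ B z).Finite ∨ (B z \ B x).Finite := by
  classical
  have := infinite_Id2 (K := K)
  obtain ⟨_⟩ := nonempty_denumerable (Id2 K)
  let e : ℕ ≃ Id2 K := (Denumerable.eqv (Id2 K)).symm
  have hinf : ∀ S : Set (Id2 K), S.Infinite → (e ⁻¹' S).Infinite := fun S hS =>
    hS.preimage (by rw [e.surjective.range_eq]; exact subset_univ _)
  refine ⟨e, fun n => isClopen_UU _, UU_injective.comp e.injective,
    fun n => UU_ne_univ _, fun x => ?_, ?_, ?_⟩
  · -- every point lies in infinitely many members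
    have h1 : ({p : Id2 K | x ∈ UU K p}).Infinite := by
      refine Set.Infinite.of_image (fun p : Id2 K => p.1) ?_
      refine Set.infinite_of_forall_exists_gt fun N => ?_
      refine ⟨N + 1, ⟨⟨N + 1, fun _ _ => !(blk K x (N + 1) 0 0)⟩, ?_, rfl⟩, Nat.lt_succ_self N⟩
      change blk K x (N + 1) ≠ _
      intro h
      have h2 := congrFun (congrFun h 0) 0
      simp at h2
    exact hinf _ h1
  · rintro ⟨A, hA, hA'⟩
    let N : Set ℕ := {n | ∃ s, (⟨n, s⟩ : Id2 K) ∈ e '' A}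
    have hN : N.Infinite := by
      intro hfin
      have h1 : (e '' A).Infinite := hA.image e.injective.injOn
      refine h1 ((hfin.biUnion fun n _ =>
        (toFinite (univ : Set (Fin (n + 1) → Fin (K n + 1) → Bool))).image
        (Sigma.mk n)).subset ?_)
      rintro ⟨n, s⟩ hp1
      exact mem_biUnion (⟨s, hp1⟩ : n ∈ N) ⟨s, mem_univ _, rfl⟩
    have hch : ∀ n, ∃ s : Fin (n + 1) → Fin (K n + 1) → Bool, n ∈ N →
        (⟨n, s⟩ : Id2 K) ∈ e '' A := by
      intro n
      by_cases h : n ∈ N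
      · obtain ⟨s, hs⟩ := h
        exact ⟨s, fun _ => hs⟩
      · exact ⟨fun _ _ => false, fun h' => absurd h' h⟩
    choose F hF using hch
    obtain ⟨x, hx⟩ := exists_blk F
    refine hN (((hA' x).image fun n => (e n).1).subset ?_)
    intro n hn
    obtain ⟨m, hm, hm'⟩ := hF n hn
    refine ⟨m, ⟨hm, ?_⟩, ?_⟩
    · change ¬ (blk K x (e m).1 ≠ (e m).2)
      rw [hm', not_not]
      exact hx n
    · change (e m).1 = n
      rw [hm']
  · intro Y hY
    obtain ⟨T, hT1, hT2, hT3⟩ := exists_tower2 (K := K) Y hY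
    have key : ∀ S : Set (Id2 K), S.Finite → (e ⁻¹' S).Finite := fun S h =>
      h.preimage e.injective.injOn
    have hsub : ∀ x (h : ∃ y ∈ Y, Evades K y x),
        (T ⟨h.choose, h.choose_spec.1⟩ \ {p | x ∈ UU K p}).Finite := by
      intro x h
      exact (h.choose_spec.2).finite.subset (sdiff_subset_sdiff_left (hT2 ⟨h.choose, h.choose_spec.1⟩))
    refine ⟨fun x => if h : ∃ y ∈ Y, Evades K y x then
      e ⁻¹' (T ⟨h.choose, h.choose_spec.1⟩ ∩ {p | x ∈ UU K p}) else ∅, ?_, ?_⟩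
    · intro x hx
      simp only [dif_pos hx]
      refine ⟨fun n hn => hn.2, hinf _ ?_⟩
      have h1 := (hT1 ⟨hx.choose, hx.choose_spec.1⟩).infinite
      have h2 := h1.sdiff (hsub x hx)
      refine h2.mono ?_
      rintro p ⟨hp1, hp2⟩
      refine ⟨hp1, ?_⟩
      by_contra h3
      exact hp2 ⟨hp1, h3⟩
    · intro x z hx hz
      simp only [dif_pos hx, dif_pos hz]
      have main : ∀ (x z : ℕ → Bool) (hx : ∃ y ∈ Y, Evades K y x) (hz : ∃ y ∈ Y, Evades K y z),
          (T ⟨hx.choose, hx.choose_spec.1⟩ \ T ⟨hz.choose, hz.choose_spec.1⟩).Finite →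
          (e ⁻¹' (T ⟨hx.choose, hx.choose_spec.1⟩ ∩ {p | x ∈ UU K p}) \
            e ⁻¹' (T ⟨hz.choose, hz.choose_spec.1⟩ ∩ {p | z ∈ UU K p})).Finite := by
        intro x z hx hz h
        refine (key _ (h.union (hsub z hz))).subset ?_
        rintro n ⟨⟨hn1, hn2⟩, hn3⟩
        by_cases h4 : e n ∈ T ⟨hz.choose, hz.choose_spec.1⟩
        · right
          exact ⟨h4, fun h5 => hn3 ⟨h4, h5⟩⟩
        · left
          exact ⟨hn1, h4⟩
      rcases hT3 ⟨hx.choose, hx.choose_spec.1⟩ ⟨hz.choose, hz.choose_spec.1⟩ with h | h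
      · exact Or.inl (main x z hx hz h)
      · exact Or.inr (main z x hz hx h)

end Pool.Agent.TSN
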