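import Pool.Agent.TSN.SN

/-!
# The cover with an arbitrary tower
-/

set_option autoImplicit false

namespace Pool.Agent.TSN

open Set Pool.Agent.TauStar

variable {K : ℕ → ℕ}

/-- The cover, enumerated by natural numbers. -/
theorem exists_cover3 (K : ℕ → ℕ) : ∃ e : ℕ ≃ Id2 K, (∀ n, IsClopen (UU K (e n))) ∧
    Function.Injective (fun n => UU K (e n)) ∧
    (∀ n, UU K (e n) ≠ univ) ∧ (∀ x, {n | x ∈ UU K (e n)}.Infinite) ∧
    ¬ HasGammaSubcover (fun n => UU K (e n)) ∧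
    ∀ (Y : Set (ℕ → Bool)) (T : Y → Set (Id2 K)), (∀ y, (T y).Infinite) →
      (∀ y, (T y \ RR K y.1).Finite) → (∀ y z, (T y \ T z).Finite ∨ (T z \ T y).Finite) →
      ∃ B : (ℕ → Bool) → Set ℕ,
        (∀ x, (∃ y ∈ Y, Evades K y x) → B x ⊆ {n | x ∈ UU K (e n)} ∧ (B x).Infinite) ∧
        ∀ x z, (∃ y ∈ Y, Evades K y x) → (∃ y ∈ Y, Evades K y z) →
          (B x \ B z).Finite ∨ (B z \ B x).Finite := by
  classical
  have := infinite_Id2 (K := K)
  obtain ⟨_⟩ := nonempty_denumerable (Id2 K)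
  let e : ℕ ≃ Id2 K := (Denumerable.eqv (Id2 K)).symm
  have hinf : ∀ S : Set (Id2 K), S.Infinite → (e ⁻¹' S).Infinite := fun S hS =>
    hS.preimage (by rw [e.surjective.range_eq]; exact subset_univ _)
  refine ⟨e, fun n => isClopen_UU _, UU_injective.comp e.injective,
    fun n => UU_ne_univ _, fun x => ?_, ?_, ?_⟩
  · -- every point lies in infinitely many members
    have h1 : ({p : Id2 K | x ∈ UU K p}).Infinite := by
      refine Set.Infinite.of_image (fun p : Id2 K => p.1) ?_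
      refine Set.infinite_of_forall_exists_gt fun N => ?_
      refine ⟨N + 1, ⟨⟨N + 1, fun _ _ => !(blk K x (N + 1) 0 0)⟩, ?_, rfl⟩, Nat.lt_succ_self N⟩
      change blk K x (N + 1) ≠ _
      intro h
      have h2 := congrFun (congrFun h 0) 0
      simp at h2
    exact hinf _ h1
  · rintro ⟨A, hA, hA'⟩
    let N : Set ℕ := {n | ∃ s, (⟨n, s⟩ : Id2 K) ∈ e '' A}
    have hN : N.Infinite := by
      intro hfin
      have h1 : (e '' A).Infinite := hA.image e.injective.injOn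
      refine h1 ((hfin.biUnion fun n _ =>
        (toFinite (univ : Set (Fin (n + 1) → Fin (K n + 1) → Bool))).image
        (Sigma.mk n)).subset ?_)
      rintro ⟨n, s⟩ hp1
      exact mem_biUnion (⟨s, hp1⟩ : n ∈ N) ⟨s, mem_univ _, rfl⟩
    have hch : ∀ n, ∃ s : Fin (n + 1) → Fin (K n + 1) → Bool, n ∈ N →
        (⟨n, s⟩ : Id2 K) ∈ e '' A := by
      intro n
      by_cases h : n ∈ N
      · obtain ⟨s, hs⟩ := h
        exact ⟨s, fun _ => hs⟩
      · exact ⟨fun _ _ => false, fun h' => absurd h' h⟩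
    choose F hF using hch
    obtain ⟨x, hx⟩ := exists_blk F
    refine hN (((hA' x).image fun n => (e n).1).subset ?_)
    intro n hn
    obtain ⟨m, hm, hm'⟩ := hF n hn
    refine ⟨m, ⟨hm, ?_⟩, ?_⟩
    · change ¬ (blk K x (e m).1 ≠ (e m).2)
      rw [hm', not_not]
      exact hx n
    · change (e m).1 = n
      rw [hm']
  · intro Y T hT1 hT2 hT3
    have key : ∀ S : Set (Id2 K), S.Finite → (e ⁻¹' S).Finite := fun S h =>
      h.preimage e.injective.injOn
    have hsub : ∀ x (h : ∃ y ∈ Y, Evades K y x),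
        (T ⟨h.choose, h.choose_spec.1⟩ \ {p | x ∈ UU K p}).Finite := by
      intro x h
      refine ((hT2 ⟨h.choose, h.choose_spec.1⟩).union (h.choose_spec.2).finite).subset ?_
      rintro p ⟨hp1, hp2⟩
      by_cases h4 : p ∈ RR K h.choose
      · exact Or.inr ⟨h4, hp2⟩
      · exact Or.inl ⟨hp1, h4⟩
    refine ⟨fun x => if h : ∃ y ∈ Y, Evades K y x then
      e ⁻¹' (T ⟨h.choose, h.choose_spec.1⟩ ∩ {p | x ∈ UU K p}) else ∅, ?_, ?_⟩
    · intro x hx
      simp only [dif_pos hx]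
      refine ⟨fun n hn => hn.2, hinf _ ?_⟩
      have h1 := hT1 ⟨hx.choose, hx.choose_spec.1⟩
      have h2 := h1.sdiff (hsub x hx)
      refine h2.mono ?_
      rintro p ⟨hp1, hp2⟩
      refine ⟨hp1, ?_⟩
      by_contra h3
      exact hp2 ⟨hp1, h3⟩
    · intro x z hx hz
      simp only [dif_pos hx, dif_pos hz]
      have main : ∀ (x z : ℕ → Bool) (hx : ∃ y ∈ Y, Evades K y x) (hz : ∃ y ∈ Y, Evades K y z),
          (T ⟨hx.choose, hx.choose_spec.1⟩ \ T ⟨hz.choose, hz.choose_spec.1⟩).Finite →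
          (e ⁻¹' (T ⟨hx.choose, hx.choose_spec.1⟩ ∩ {p | x ∈ UU K p}) \
            e ⁻¹' (T ⟨hz.choose, hz.choose_spec.1⟩ ∩ {p | z ∈ UU K p})).Finite := by
        intro x z hx hz h
        refine (key _ (h.union (hsub z hz))).subset ?_
        rintro n ⟨⟨hn1, hn2⟩, hn3⟩
        by_cases h4 : e n ∈ T ⟨hz.choose, hz.choose_spec.1⟩
        · right
          exact ⟨h4, fun h5 => hn3 ⟨h4, h5⟩⟩
        · left
          exact ⟨hn1, h4⟩
      rcases hT3 ⟨hx.choose, hx.choose_spec.1⟩ ⟨hz.choose, hz.choose_spec.1⟩ with h | h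
      · exact Or.inl (main x z hx hz h)
      · exact Or.inr (main z x hz hx h)

/-- Word form: a tower `T` along `Y`, `T y` almost contained in the set of the `(m, s)` such that the
initial word of `y` occurs in `s`, and each `x` evaded by some `y` in `Y`. -/
theorem not_cantor_of_words (K : ℕ → ℕ) (Y : Set (ℕ → Bool)) (T : Y → Set (Id2 K))
    (h1 : ∀ y, (T y).Infinite)
    (h2 : ∀ y, (T y \ {p : Id2 K | ∃ i, p.2 i = pre K y.1 p.1}).Finite)
    (h3 : ∀ y z, (T y \ T z).Finite ∨ (T z \ T y).Finite)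
    (h4 : ∀ x : ℕ → Bool, ∃ y ∈ Y, ∃ N, ∀ m, N ≤ m → ∀ i, blk K x m i ≠ pre K y m) :
    ¬ CantorSatisfiesTauStarGamma := by
  classical
  choose ζ hζ using fun y : ℕ → Bool => exists_blk (K := K) (fun m _ => pre K y m)
  obtain ⟨e, c1, c2, c3, c4, c5, c6⟩ := exists_cover3 K
  -- the tower along `ζ '' Y`
  have hch : ∀ z : ζ '' Y, ∃ y : Y, ζ y.1 = z.1 := by
    rintro ⟨_, y, hy, rfl⟩
    exact ⟨⟨y, hy⟩, rfl⟩
  choose g hg using hch
  have hRR : ∀ z : ζ '' Y, RR K z.1 = {p : Id2 K | ∃ i, p.2 i = pre K (g z).1 p.1} := by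
    intro z
    ext p
    simp only [RR, mem_ofPred_eq]
    rw [← hg z, hζ]
  obtain ⟨B, hB1, hB2⟩ := c6 (ζ '' Y) (fun z => T (g z)) (fun z => h1 _)
    (fun z => by rw [hRR z]; exact h2 _) (fun z w => h3 _ _)
  have hev : ∀ x, ∃ y ∈ ζ '' Y, Evades K y x := fun x => by
    obtain ⟨y, hy, N, hN⟩ := h4 x
    refine ⟨ζ y, ⟨y, hy, rfl⟩, N, fun m hm i => ?_⟩
    rw [hζ y m]
    exact hN m hm i
  intro hQ
  exact c5 (hQ _ ⟨fun n => (c1 n).isOpen, c2, c3, c4, B, fun x => (hB1 x (hev x)).1,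
    fun x => (hB1 x (hev x)).2, fun x y => hB2 x y (hev x) (hev y)⟩)

end Pool.Agent.TSN
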